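import Mathlib

/-!
# Benzenoid systems with a hexagon of ring bond order three, for every number of hexagons

For every `N ≥ 8` there is a benzenoid system with exactly `N` hexagons, with a Kekule structure,
and with a hexagon of ring bond order `3`: a system with eight hexagons with a linear chain of
`N - 8` hexagons attached.
-/

set_option autoImplicit false

namespace Pool.Agent.Results.MP_64a46a_co.EveryNumber

open Finset SimpleGraph

/-- the hexagonal lattice in brick-wall coordinates -/
def lat : SimpleGraph (ℤ × ℤ) where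
  Adj p q := (p.2 = q.2 ∧ (q.1 = p.1 + 1 ∨ p.1 = q.1 + 1)) ∨
    (p.1 = q.1 ∧ ((q.2 = p.2 + 1 ∧ (p.1 + p.2) % 2 = 0) ∨ (p.2 = q.2 + 1 ∧ (q.1 + q.2) % 2 = 0)))
  symm := ⟨by intro p q h; omega⟩
  loopless := ⟨by intro p h; omega⟩

instance : DecidableRel lat.Adj := fun p q => by unfold lat; infer_instance

/-- the six edges of the hexagon (face of the lattice) with index `c = (a, b)`, whose lower left
corner is `(2a + b, b)` -/
def hex (c : ℤ × ℤ) : Finset (Sym2 (ℤ × ℤ)) :=
  let x := 2 * c.1 + c.2
  let y := c.2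
  {s((x, y), (x + 1, y)), s((x + 1, y), (x + 2, y)), s((x + 2, y), (x + 2, y + 1)),
    s((x + 2, y + 1), (x + 1, y + 1)), s((x + 1, y + 1), (x, y + 1)), s((x, y + 1), (x, y))}

/-- `S` is the set of hexagons inside a cycle `C` of the lattice: the edges lying on exactly one
hexagon of `S` are the edges of `C` -/
def IsBenzenoid (S : Finset (ℤ × ℤ)) : Prop :=
  ∃ (v : ℤ × ℤ) (C : lat.Walk v v), C.IsCycle ∧
    ∀ e, e ∈ C.edges ↔ (S.filter (fun c => e ∈ hex c)).card = 1

/-- the edges of the benzenoid system; its vertices are the ends of these edges -/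
def edges (S : Finset (ℤ × ℤ)) : Finset (Sym2 (ℤ × ℤ)) := S.biUnion hex

open Classical in
/-- the perfect matchings (Kekule structures) -/
noncomputable def kekule (S : Finset (ℤ × ℤ)) : Finset (Finset (Sym2 (ℤ × ℤ))) :=
  (edges S).powerset.filter (fun M => ∀ v, (∃ e ∈ edges S, v ∈ e) → ∃! e, e ∈ M ∧ v ∈ e)

/-- ring bond order -/
noncomputable def RBO (S : Finset (ℤ × ℤ)) (h : ℤ × ℤ) : ℚ :=
  (∑ M ∈ kekule S, ((M ∩ hex h).card : ℚ)) / (kekule S).card

/-- the basic system with eight hexagons -/
def S0 : Finset (ℤ × ℤ) := {(3, 1), (2, 1), (3, 2), (1, 2), (4, 1), (1, 3), (2, 0), (0, 3)}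

/-- the system with eight plus `m` hexagons -/
def SS : ℕ → Finset (ℤ × ℤ)
  | 0 => S0
  | m + 1 => insert (-(m : ℤ) - 1, 3) (SS m)

def Vs : Finset (ℤ × ℤ) := {(3, 3), (3, 4), (4, 0), (4, 1), (4, 2), (4, 3), (4, 4), (5, 0), (5, 1),
  (5, 2), (5, 3), (5, 4), (6, 0), (6, 1), (6, 2), (6, 3), (6, 4), (7, 1), (7, 2), (7, 3), (7, 4),
  (8, 1), (8, 2), (8, 3), (9, 1), (9, 2), (9, 3), (10, 1), (10, 2), (10, 3), (11, 1), (11, 2)}

def y1 (v : ℤ × ℤ) : ℤ := (([((4, 1), 1), ((5, 0), 1), ((6, 1), 1), ((7, 1), -1), ((8, 1), 1),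
  ((8, 2), -1), ((8, 3), 1), ((9, 1), -1), ((9, 2), 1), ((9, 3), -1), ((10, 1), 1), ((10, 2), -1),
  ((10, 3), 1), ((11, 1), -1), ((11, 2), 1)] : List ((ℤ × ℤ) × ℤ)).lookup v).getD 0

def y2 (v : ℤ × ℤ) : ℤ := if v = (4, 1) ∨ v = (5, 0) ∨ v = (6, 1) then 1 else 0

def M0 : Finset (Sym2 (ℤ × ℤ)) := {s((3, 3), (4, 3)), s((3, 4), (4, 4)), s((4, 0), (5, 0)),
  s((4, 1), (5, 1)), s((4, 2), (5, 2)), s((5, 3), (6, 3)), s((5, 4), (6, 4)), s((6, 0), (6, 1)),
  s((6, 2), (7, 2)), s((7, 1), (8, 1)), s((7, 3), (7, 4)), s((8, 2), (9, 2)), s((8, 3), (9, 3)),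
  s((9, 1), (10, 1)), s((10, 2), (10, 3)), s((11, 1), (11, 2))}

/-- the six edges of the new hexagon -/
lemma hex_new (m : ℕ) (x : ℤ) (hx : x = 1 - 2 * (m : ℤ)) : hex (-(m : ℤ) - 1, 3) =
    {s((x, 3), (x + 1, 3)), s((x + 1, 3), (x + 2, 3)),
      s((x + 2, 3), (x + 2, 4)), s((x + 2, 4), (x + 1, 4)),
      s((x + 1, 4), (x, 4)), s((x, 4), (x, 3))} := by
  unfold hex
  have e1 : 2 * (-(m : ℤ) - 1) + 3 = x := by omega
  simp only [e1]
  norm_num

/-- vertices of the system lie in the half plane `3 - 2 m ≤ x` -/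
lemma SS_ge (m : ℕ) : ∀ c ∈ SS m, ∀ e ∈ hex c, ∀ v ∈ e, 3 - 2 * (m : ℤ) ≤ v.1 := by
  induction m with
  | zero =>
    intro c hc e he v hv
    have h : ∀ c ∈ S0, ∀ e ∈ hex c, ∀ v ∈ e.toFinset, (3 : ℤ) ≤ v.1 := by decide +kernel
    simpa using h c hc e he v (by simpa using hv)
  | succ m ih =>
    intro c hc e he v hv
    rw [SS, mem_insert] at hc
    push_cast
    rcases hc with rfl | hc
    · rw [hex_new m _ rfl] at he
      simp only [mem_insert, mem_singleton] at he
      rcases he with rfl | rfl | rfl | rfl | rfl | rfl <;>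
        (rw [Sym2.mem_iff] at hv; rcases hv with rfl | rfl <;> simp only <;> omega)
    · have := ih c hc e he v hv
      omega

lemma new_notMem (m : ℕ) : ((-(m : ℤ) - 1, 3) : ℤ × ℤ) ∉ SS m := by
  intro h
  have := SS_ge m _ h (s((1 - 2 * (m : ℤ), 3), (1 - 2 * (m : ℤ) + 1, 3)))
    (by rw [hex_new m _ rfl]; simp) (1 - 2 * (m : ℤ), 3) (by simp)
  simp only at this
  omega

lemma card_SS (m : ℕ) : (SS m).card = 8 + m := by
  induction m with
  | zero => decide
  | succ m ih => rw [SS, card_insert_of_notMem (new_notMem m), ih]; omega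

/-- the boundary of the basic system without its edge at `x = 3` -/
def W0 : lat.Walk (3, 3) (3, 4) :=
  Walk.cons (show lat.Adj (3, 3) (4, 3) by decide)
    (Walk.cons (show lat.Adj (4, 3) (4, 2) by decide)
    (Walk.cons (show lat.Adj (4, 2) (5, 2) by decide)
    (Walk.cons (show lat.Adj (5, 2) (5, 1) by decide)
    (Walk.cons (show lat.Adj (5, 1) (4, 1) by decide)
    (Walk.cons (show lat.Adj (4, 1) (4, 0) by decide)
    (Walk.cons (show lat.Adj (4, 0) (5, 0) by decide)
    (Walk.cons (show lat.Adj (5, 0) (6, 0) by decide)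
    (Walk.cons (show lat.Adj (6, 0) (6, 1) by decide)
    (Walk.cons (show lat.Adj (6, 1) (7, 1) by decide)
    (Walk.cons (show lat.Adj (7, 1) (8, 1) by decide)
    (Walk.cons (show lat.Adj (8, 1) (9, 1) by decide)
    (Walk.cons (show lat.Adj (9, 1) (10, 1) by decide)
    (Walk.cons (show lat.Adj (10, 1) (11, 1) by decide)
    (Walk.cons (show lat.Adj (11, 1) (11, 2) by decide)
    (Walk.cons (show lat.Adj (11, 2) (10, 2) by decide)
    (Walk.cons (show lat.Adj (10, 2) (10, 3) by decide)
    (Walk.cons (show lat.Adj (10, 3) (9, 3) by decide)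
    (Walk.cons (show lat.Adj (9, 3) (8, 3) by decide)
    (Walk.cons (show lat.Adj (8, 3) (8, 2) by decide)
    (Walk.cons (show lat.Adj (8, 2) (7, 2) by decide)
    (Walk.cons (show lat.Adj (7, 2) (6, 2) by decide)
    (Walk.cons (show lat.Adj (6, 2) (6, 3) by decide)
    (Walk.cons (show lat.Adj (6, 3) (7, 3) by decide)
    (Walk.cons (show lat.Adj (7, 3) (7, 4) by decide)
    (Walk.cons (show lat.Adj (7, 4) (6, 4) by decide)
    (Walk.cons (show lat.Adj (6, 4) (5, 4) by decide)
    (Walk.cons (show lat.Adj (5, 4) (4, 4) by decide)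
    (Walk.cons (show lat.Adj (4, 4) (3, 4) by decide)
    (Walk.nil)))))))))))))))))))))))))))))

/-- the boundary path: invariant of the induction -/
lemma boundary (m : ℕ) : ∀ x : ℤ, x = 3 - 2 * (m : ℤ) → ∃ W : lat.Walk (x, 3) (x, 4), W.IsPath ∧
    (∀ v ∈ W.support, x ≤ v.1) ∧ s((x, 3), (x, 4)) ∉ W.edges ∧
    ∀ e, (e ∈ W.edges ∨ e = s((x, 3), (x, 4))) ↔
      ((SS m).filter (fun c => e ∈ hex c)).card = 1 := by
  induction m with
  | zero =>
    intro x hx
    obtain rfl : x = 3 := by simpa using hx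
    refine ⟨W0, ?_, ?_, ?_, ?_⟩
    · rw [Walk.isPath_def]
      decide +kernel
    · decide +kernel
    · decide +kernel
    · intro e
      have h1 : ∀ e ∈ s((3, 3), (3, 4)) :: W0.edges, (S0.filter (fun c => e ∈ hex c)).card = 1 := by
        decide +kernel
      have h2 : ∀ e ∈ edges S0, (S0.filter (fun c => e ∈ hex c)).card = 1 →
          e ∈ s((3, 3), (3, 4)) :: W0.edges := by
        decide +kernel
      constructor
      · rintro (h | h)
        · exact h1 e (List.mem_cons_of_mem _ h)
        · refine h1 e ?_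
          rw [h]
          simp
      · intro h
        obtain ⟨c, hc⟩ := Finset.card_pos.mp (by
          rw [SS] at h
          omega : 0 < (S0.filter (fun c => e ∈ hex c)).card)
        rw [mem_filter] at hc
        rcases List.mem_cons.1 (h2 e (Finset.mem_biUnion.mpr ⟨c, hc.1, hc.2⟩) h) with h | h
        · right; rw [h]
        · exact Or.inl h
  | succ m ih =>
    intro x hx
    push_cast at hx
    obtain ⟨W, hP, hs, hn, he⟩ := ih (x + 2) (by omega)
    have a1 : lat.Adj (x, 3) (x + 1, 3) := Or.inl ⟨rfl, Or.inl rfl⟩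
    have a2 : lat.Adj (x + 1, 3) (x + 2, 3) := Or.inl ⟨rfl, Or.inl (by simp only; omega)⟩
    have a3 : lat.Adj (x + 2, 4) (x + 1, 4) := Or.inl ⟨rfl, Or.inr (by simp only; omega)⟩
    have a4 : lat.Adj (x + 1, 4) (x, 4) := Or.inl ⟨rfl, Or.inr rfl⟩
    let W' : lat.Walk (x, 3) (x, 4) :=
      Walk.cons a1 (Walk.cons a2 (W.append (Walk.cons a3 (Walk.cons a4 Walk.nil))))
    have hsup : W'.support = (x, 3) :: (x + 1, 3) :: (W.support ++ [(x + 1, 4), (x, 4)]) := by
      simp [W', Walk.support_append]
    have hedg : W'.edges = s((x, 3), (x + 1, 3)) :: s((x + 1, 3), (x + 2, 3)) ::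
        (W.edges ++ [s((x + 2, 4), (x + 1, 4)), s((x + 1, 4), (x, 4))]) := by
      simp [W', Walk.edges_append]
    have hWe : ∀ e ∈ W.edges, ∀ v ∈ e, x + 2 ≤ v.1 := fun e he v hv =>
      hs v (W.mem_support_of_mem_edges he hv)
    have hnew := hex_new m x (by omega)
    have hE2 : s((x + 2, 3), (x + 2, 4)) ∈ hex (-(m : ℤ) - 1, 3) := by rw [hnew]; simp
    have hlow : ∀ e, (∃ v ∈ e, v.1 < x + 2) → ((SS m).filter (fun c => e ∈ hex c)).card = 0 := by
      rintro e ⟨v, hv, hlt⟩
      rw [Finset.card_eq_zero, Finset.filter_eq_empty_iff]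
      intro c hc hec
      have := SS_ge m c hc e hec v hv
      omega
    refine ⟨W', ?_, ?_, ?_, ?_⟩
    · rw [Walk.isPath_def, hsup]
      rw [Walk.isPath_def] at hP
      have hlt : ∀ v : ℤ × ℤ, v.1 < x + 2 → v ∉ W.support := fun v hv h => by
        have := hs v h
        omega
      simp only [List.nodup_cons, List.mem_cons, List.mem_append, List.not_mem_nil, or_false,
        not_or, List.nodup_append]
      refine ⟨⟨?_, hlt _ (by simp only; omega), ?_, ?_⟩, ⟨hlt _ (by simp only; omega), ?_, ?_⟩, hP, ?_, ?_⟩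
      · simp
      · simp
      · simp
      · simp
      · simp
      · simp
      · intro a ha b hb hab
        subst hab
        rcases hb with rfl | rfl
        · exact hlt _ (by simp only; omega) ha
        · exact hlt _ (by simp only; omega) ha
    · intro v hv
      rw [hsup] at hv
      simp only [List.mem_cons, List.mem_append, List.not_mem_nil, or_false] at hv
      rcases hv with rfl | rfl | hv | rfl | rfl
      · simp
      · simp
      · have := hs v hv
        omega
      · simp
      · simp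
    · rw [hedg]
      simp only [List.mem_cons, List.mem_append, List.not_mem_nil, or_false, not_or]
      refine ⟨by simp, by simp, fun h => ?_, by simp, by simp⟩
      have := hWe _ h (x, 3) (by simp)
      simp only at this
      omega
    · intro e
      rw [SS, Finset.filter_insert]
      by_cases hin : e ∈ hex (-(m : ℤ) - 1, 3)
      · rw [if_pos hin, Finset.card_insert_of_notMem (fun h => new_notMem m (mem_filter.1 h).1)]
        have hin' := hin
        rw [hnew] at hin'
        simp only [mem_insert, mem_singleton] at hin'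
        have h3 : ((SS m).filter (fun c => s((x + 2, 3), (x + 2, 4)) ∈ hex c)).card = 1 :=
          (he _).1 (Or.inr rfl)
        rcases hin' with rfl | rfl | rfl | rfl | rfl | rfl
        · rw [hlow _ ⟨(x, 3), by simp, by simp only; omega⟩]
          simp [hedg]
        · rw [hlow _ ⟨(x + 1, 3), by simp, by simp only; omega⟩]
          simp [hedg]
        · rw [h3]
          constructor
          · intro h
            exfalso
            rw [hedg] at h
            simp only [List.mem_cons, List.mem_append, List.not_mem_nil, or_false, hn, false_or] at h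
            simp at h
          · intro h
            omega
        · rw [hlow _ ⟨(x + 1, 4), by simp, by simp only; omega⟩]
          simp [hedg]
        · rw [hlow _ ⟨(x, 4), by simp, by simp only; omega⟩]
          simp [hedg]
        · rw [hlow _ ⟨(x, 4), by simp, by simp only; omega⟩]
          simp [hedg]
      · rw [if_neg hin, ← he e]
        have hin' := hin
        rw [hnew] at hin'
        simp only [mem_insert, mem_singleton, not_or] at hin'
        rw [hedg]
        simp only [List.mem_cons, List.mem_append, List.not_mem_nil, or_false]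
        have hsw : s(((x, 3) : ℤ × ℤ), ((x, 4) : ℤ × ℤ)) = s((x, 4), (x, 3)) := Sym2.eq_swap
        rw [hsw]
        obtain ⟨b1, b2, b3, b4, b5, b6⟩ := hin'
        constructor
        · rintro ((h | h | h | h | h) | h)
          · exact absurd h b1
          · exact absurd h b2
          · exact Or.inl h
          · exact absurd h b4
          · exact absurd h b5
          · exact absurd h b6
        · rintro (h | h)
          · exact Or.inl (Or.inr (Or.inr (Or.inl h)))
          · exact absurd h b3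

lemma isBenzenoid (m : ℕ) : IsBenzenoid (SS m) := by
  obtain ⟨W, hP, hs, hn, he⟩ := boundary m _ rfl
  have hadj : lat.Adj (3 - 2 * (m : ℤ), 4) (3 - 2 * (m : ℤ), 3) :=
    Or.inr ⟨rfl, Or.inr ⟨rfl, by simp only; omega⟩⟩
  refine ⟨_, Walk.cons hadj W, ?_, fun e => ?_⟩
  · rw [Walk.cons_isCycle_iff]
    refine ⟨hP, ?_⟩
    rw [Sym2.eq_swap]
    exact hn
  · rw [← he e, Walk.edges_cons, List.mem_cons, Sym2.eq_swap]
    tauto

/-- the Kekule structure -/
def MM : ℕ → Finset (Sym2 (ℤ × ℤ))
  | 0 => M0
  | m + 1 => insert s((1 - 2 * (m : ℤ), 3), (2 - 2 * (m : ℤ), 3))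
      (insert s((1 - 2 * (m : ℤ), 4), (2 - 2 * (m : ℤ), 4)) (MM m))

lemma S0_subset (m : ℕ) : S0 ⊆ SS m := by
  induction m with
  | zero => exact Finset.Subset.refl _
  | succ m ih => exact ih.trans (subset_insert _ _)

/-- a new edge: all its vertices in `Vs` are `(3, 3)` or `(3, 4)` -/
lemma edges_cases (m : ℕ) : ∀ e ∈ edges (SS m), e ∈ edges S0 ∨
    (∀ v ∈ e, v.1 ≤ 3) := by
  induction m with
  | zero => intro e he; exact Or.inl he
  | succ m ih =>
    intro e he
    unfold edges at he
    rw [SS, Finset.biUnion_insert, mem_union] at he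
    rcases he with he | he
    · right
      intro v hv
      rw [hex_new m _ rfl] at he
      simp only [mem_insert, mem_singleton] at he
      rcases he with rfl | rfl | rfl | rfl | rfl | rfl <;>
        (rw [Sym2.mem_iff] at hv; rcases hv with rfl | rfl <;> simp only <;> omega)
    · exact ih e he

lemma dual (m : ℕ) (M : Finset (Sym2 (ℤ × ℤ))) (hM : M ∈ kekule (SS m)) (y : ℤ × ℤ → ℤ) :
    ∑ e ∈ M, ∑ v ∈ Vs, (if v ∈ e then y v else 0) = ∑ v ∈ Vs, y v := by
  rw [Finset.sum_comm]
  apply Finset.sum_congr rfl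
  intro v hv
  have h1 : ∀ v ∈ Vs, ∃ e ∈ edges S0, v ∈ e := by decide +kernel
  simp only [kekule, mem_filter] at hM
  obtain ⟨e', he', hve'⟩ := h1 v hv
  obtain ⟨e, ⟨he, hve⟩, hu⟩ := hM.2 v ⟨e', Finset.biUnion_subset_biUnion_of_subset_left _
    (S0_subset m) he', hve'⟩
  rw [Finset.sum_eq_single e]
  · simp [hve]
  · intro b hb hne
    rw [if_neg]
    intro hvb
    exact hne (hu b ⟨hb, hvb⟩)
  · intro h; exact absurd he h

lemma three (m : ℕ) (M : Finset (Sym2 (ℤ × ℤ))) (hM : M ∈ kekule (SS m)) :
    (M ∩ hex (2, 0)).card = 3 := by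
  have hsub : M ⊆ edges (SS m) := by
    simp only [kekule, mem_filter, mem_powerset] at hM; exact hM.1
  have hc : ((M ∩ hex (2, 0)).card : ℤ) = ∑ e ∈ M, (if e ∈ hex (2, 0) then 1 else 0 : ℤ) := by
    rw [Finset.sum_boole, Finset.filter_mem_eq_inter]
  have k1 : ∀ e ∈ edges S0, ∑ v ∈ Vs, (if v ∈ e then y1 v else 0) ≤
      (if e ∈ hex (2, 0) then 1 else 0 : ℤ) := by decide +kernel
  have k2 : ∀ e ∈ edges S0, (if e ∈ hex (2, 0) then 1 else 0 : ℤ) ≤
      ∑ v ∈ Vs, (if v ∈ e then y2 v else 0) := by decide +kernel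
  have z1 : ∀ v ∈ Vs, v.1 ≤ 3 → y1 v = 0 ∧ y2 v = 0 := by decide +kernel
  have z2 : ∀ e ∈ hex (2, 0), ∃ v ∈ e.toFinset, 3 < v.1 := by decide +kernel
  have n1 : ∀ e, (∀ v ∈ e, v.1 ≤ 3) → ∑ v ∈ Vs, (if v ∈ e then y1 v else 0) = 0 ∧
      ∑ v ∈ Vs, (if v ∈ e then y2 v else 0) = 0 ∧ e ∉ hex (2, 0) := by
    intro e he
    refine ⟨Finset.sum_eq_zero fun v hv => ?_, Finset.sum_eq_zero fun v hv => ?_, fun h => ?_⟩
    · split_ifs with h
      · exact (z1 v hv (he v h)).1
      · rfl
    · split_ifs with h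
      · exact (z1 v hv (he v h)).2
      · rfl
    · obtain ⟨v, hv, h3⟩ := z2 e h
      have := he v (by simpa using hv)
      omega
  have s1 : ∑ v ∈ Vs, y1 v = 3 := by decide +kernel
  have s2 : ∑ v ∈ Vs, y2 v = 3 := by decide +kernel
  have a1 := Finset.sum_le_sum (s := M) (f := fun e => ∑ v ∈ Vs, (if v ∈ e then y1 v else 0))
    (g := fun e => (if e ∈ hex (2, 0) then 1 else 0 : ℤ)) (fun e he => by
      rcases edges_cases m e (hsub he) with h | h
      · exact k1 e h
      · obtain ⟨q1, q2, q3⟩ := n1 e h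
        simp only [q1, q3, if_false, le_refl])
  have a2 := Finset.sum_le_sum (s := M) (g := fun e => ∑ v ∈ Vs, (if v ∈ e then y2 v else 0))
    (f := fun e => (if e ∈ hex (2, 0) then 1 else 0 : ℤ)) (fun e he => by
      rcases edges_cases m e (hsub he) with h | h
      · exact k2 e h
      · obtain ⟨q1, q2, q3⟩ := n1 e h
        simp only [q2, q3, if_false, le_refl])
  rw [dual m M hM, s1] at a1
  rw [dual m M hM, s2] at a2
  omega

lemma MM_ge (m : ℕ) : ∀ e ∈ MM m, ∀ v ∈ e, 3 - 2 * (m : ℤ) ≤ v.1 := by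
  induction m with
  | zero =>
    intro e he v hv
    have h : ∀ e ∈ M0, ∀ v ∈ e.toFinset, (3 : ℤ) ≤ v.1 := by decide +kernel
    simpa using h e he v (by simpa using hv)
  | succ m ih =>
    intro e he v hv
    rw [MM, mem_insert, mem_insert] at he
    push_cast
    rcases he with rfl | rfl | he
    · rw [Sym2.mem_iff] at hv
      rcases hv with rfl | rfl <;> simp only <;> omega
    · rw [Sym2.mem_iff] at hv
      rcases hv with rfl | rfl <;> simp only <;> omega
    · have := ih e he v hv
      omega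

lemma MM_mem (m : ℕ) : MM m ∈ kekule (SS m) := by
  induction m with
  | zero =>
    show M0 ∈ kekule S0
    simp only [kekule, mem_filter, mem_powerset]
    refine ⟨by decide +kernel, ?_⟩
    rintro v ⟨e, he, hv⟩
    have h1 : ∀ e ∈ edges S0, ∀ v ∈ e.toFinset, v ∈ Vs := by decide +kernel
    have h2 : ∀ v ∈ Vs, (M0.filter (fun e => v ∈ e)).card = 1 := by decide +kernel
    obtain ⟨f, hf⟩ := Finset.card_eq_one.mp (h2 v (h1 e he v (by simpa using hv)))
    have hf' : ∀ g, (g ∈ M0 ∧ v ∈ g) ↔ g = f := by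
      intro g; rw [← Finset.mem_singleton, ← hf, mem_filter]
    exact ⟨f, (hf' f).2 rfl, fun g hg => (hf' g).1 hg⟩
  | succ m ih =>
    simp only [kekule, mem_filter, mem_powerset] at ih ⊢
    obtain ⟨ih1, ih2⟩ := ih
    have hnew := hex_new m _ rfl
    have e2 : 1 - 2 * (m : ℤ) + 1 = 2 - 2 * (m : ℤ) := by ring
    have e3 : 1 - 2 * (m : ℤ) + 2 = 3 - 2 * (m : ℤ) := by ring
    rw [e2, e3] at hnew
    have hE : edges (SS (m + 1)) = hex (-(m : ℤ) - 1, 3) ∪ edges (SS m) := by
      unfold edges
      rw [SS, Finset.biUnion_insert]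
    refine ⟨?_, ?_⟩
    · rw [MM, hE]
      intro e he
      rw [mem_insert, mem_insert] at he
      rw [mem_union, hnew]
      rcases he with rfl | rfl | he
      · left; simp
      · left
        rw [Sym2.eq_swap]
        simp
      · exact Or.inr (ih1 he)
    · rintro v ⟨e, he, hv⟩
      by_cases hlt : v.1 < 3 - 2 * (m : ℤ)
      · -- a new vertex
        have hvv : v = (1 - 2 * (m : ℤ), 3) ∨ v = (2 - 2 * (m : ℤ), 3) ∨ v = (1 - 2 * (m : ℤ), 4) ∨
            v = (2 - 2 * (m : ℤ), 4) := by
          rw [hE, mem_union] at he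
          rcases he with he | he
          · rw [hnew] at he
            simp only [mem_insert, mem_singleton] at he
            rcases he with rfl | rfl | rfl | rfl | rfl | rfl <;>
              (rw [Sym2.mem_iff] at hv; rcases hv with rfl | rfl <;> simp only at hlt <;>
                first | (exfalso; omega) | simp)
          · exfalso
            obtain ⟨c, hc, hec⟩ := Finset.mem_biUnion.1 he
            have := SS_ge m c hc e hec v hv
            omega
        have hno : ∀ f ∈ MM m, v ∉ f := fun f hf hvf => by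
          have := MM_ge m f hf v hvf
          omega
        rcases hvv with rfl | rfl | rfl | rfl
        · refine ⟨s((1 - 2 * (m : ℤ), 3), (2 - 2 * (m : ℤ), 3)), ⟨by simp [MM], by simp⟩, ?_⟩
          rintro f ⟨hf, hvf⟩
          rw [MM, mem_insert, mem_insert] at hf
          rcases hf with rfl | rfl | hf
          · rfl
          · exfalso
            rw [Sym2.mem_iff] at hvf
            simp at hvf
          · exact absurd hvf (hno f hf)
        · refine ⟨s((1 - 2 * (m : ℤ), 3), (2 - 2 * (m : ℤ), 3)), ⟨by simp [MM], by simp⟩, ?_⟩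
          rintro f ⟨hf, hvf⟩
          rw [MM, mem_insert, mem_insert] at hf
          rcases hf with rfl | rfl | hf
          · rfl
          · exfalso
            rw [Sym2.mem_iff] at hvf
            simp at hvf
          · exact absurd hvf (hno f hf)
        · refine ⟨s((1 - 2 * (m : ℤ), 4), (2 - 2 * (m : ℤ), 4)), ⟨by simp [MM], by simp⟩, ?_⟩
          rintro f ⟨hf, hvf⟩
          rw [MM, mem_insert, mem_insert] at hf
          rcases hf with rfl | rfl | hf
          · exfalso
            rw [Sym2.mem_iff] at hvf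
            simp at hvf
          · rfl
          · exact absurd hvf (hno f hf)
        · refine ⟨s((1 - 2 * (m : ℤ), 4), (2 - 2 * (m : ℤ), 4)), ⟨by simp [MM], by simp⟩, ?_⟩
          rintro f ⟨hf, hvf⟩
          rw [MM, mem_insert, mem_insert] at hf
          rcases hf with rfl | rfl | hf
          · exfalso
            rw [Sym2.mem_iff] at hvf
            simp at hvf
          · rfl
          · exact absurd hvf (hno f hf)
      · -- an old vertex
        push Not at hlt
        have hold : ∃ e ∈ edges (SS m), v ∈ e := by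
          rw [hE, mem_union] at he
          rcases he with he | he
          · obtain ⟨W, hP, hs, hn, hed⟩ := boundary m _ rfl
            have h3 : s((3 - 2 * (m : ℤ), 3), (3 - 2 * (m : ℤ), 4)) ∈ edges (SS m) := by
              have := (hed _).1 (Or.inr rfl)
              obtain ⟨c, hc⟩ := Finset.card_pos.mp (by
                rw [this]; omega : 0 < ((SS m).filter (fun c =>
                  s((3 - 2 * (m : ℤ), 3), (3 - 2 * (m : ℤ), 4)) ∈ hex c)).card)
              rw [mem_filter] at hc
              exact Finset.mem_biUnion.mpr ⟨c, hc.1, hc.2⟩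
            refine ⟨_, h3, ?_⟩
            rw [hnew] at he
            simp only [mem_insert, mem_singleton] at he
            rcases he with rfl | rfl | rfl | rfl | rfl | rfl <;>
              (rw [Sym2.mem_iff] at hv; rcases hv with rfl | rfl <;> simp only at hlt <;>
                first | (exfalso; omega) | simp)
          · exact ⟨e, he, hv⟩
        obtain ⟨f, ⟨hf, hvf⟩, hu⟩ := ih2 v hold
        refine ⟨f, ⟨by rw [MM]; exact mem_insert_of_mem (mem_insert_of_mem hf), hvf⟩, ?_⟩
        rintro g ⟨hg, hvg⟩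
        rw [MM, mem_insert, mem_insert] at hg
        rcases hg with rfl | rfl | hg
        · exfalso
          rw [Sym2.mem_iff] at hvg
          rcases hvg with rfl | rfl <;> simp only at hlt <;> omega
        · exfalso
          rw [Sym2.mem_iff] at hvg
          rcases hvg with rfl | rfl <;> simp only at hlt <;> omega
        · exact hu g ⟨hg, hvg⟩

/-- For every `N ≥ 8` there is a benzenoid system with exactly `N` hexagons, with at least one
Kekule structure, and with a hexagon `h` of ring bond order `3`; in every Kekule structure exactly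
three edges of `h` are double bonds. -/
theorem result : ∀ N : ℕ, 8 ≤ N → ∃ (S : Finset (ℤ × ℤ)) (h : ℤ × ℤ), IsBenzenoid S ∧ S.card = N ∧
    1 ≤ (kekule S).card ∧ h ∈ S ∧ RBO S h = 3 ∧ ∀ M ∈ kekule S, (M ∩ hex h).card = 3 := by
  intro N hN
  obtain ⟨m, rfl⟩ := Nat.exists_eq_add_of_le hN
  have hpos : 1 ≤ (kekule (SS m)).card := Finset.card_pos.mpr ⟨MM m, MM_mem m⟩
  refine ⟨SS m, (2, 0), isBenzenoid m, card_SS m, hpos, S0_subset m (by decide), ?_, three m⟩
  unfold RBO
  rw [Finset.sum_congr rfl (fun M hM => by rw [three m M hM])]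
  have : ((kekule (SS m)).card : ℚ) ≠ 0 := by positivity
  simp
  field_simp

end Pool.Agent.Results.MP_64a46a_co.EveryNumber
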